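import Mathlib

/-!
# The stack game

Abstract on-line game used for the Folkman property of intersection graphs of boxes.
A position is a list (a stack) of blocks; a block `B` carries an upper bound `B.w` for the
clique number of its alive part and lower bounds `B.κ i` for the size of an alive clique of
colour `i`.  `Force c k S` says that Presenter can force a monochromatic clique of size `c`
against a Painter with `k` colours while never creating a clique of size `c + 1`.
-/

set_option autoImplicit false

namespace Pool.MP_ccb602_co.Folkman

/-- Summary of a block of the stack. -/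
structure Blk (k : ℕ) where
  /-- upper bound for the clique number of the alive part -/
  w : ℕ
  /-- lower bound for the size of an alive monochromatic clique of the given colour -/
  κ : Fin k → ℕ

/-- The empty block. -/
def Blk.emp (k : ℕ) : Blk k := ⟨0, fun _ => 0⟩

/-- The union of two neighbouring blocks. -/
def Blk.sup {k : ℕ} (B C : Blk k) : Blk k := ⟨max B.w C.w, fun i => max (B.κ i) (C.κ i)⟩

/-- A block together with a new vertex of colour `i` adjacent to all its vertices. -/
def Blk.add {k : ℕ} (B : Blk k) (i : Fin k) : Blk k :=
  ⟨B.w + 1, Function.update B.κ i (B.κ i + 1)⟩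

/-- The union of several consecutive blocks. -/
def Blk.join {k : ℕ} : Blk k → List (Blk k) → Blk k
  | B, [] => B
  | B, C :: Cs => B.sup (Blk.join C Cs)

/-- Presenter wins the stack game from the given stack. -/
inductive Force (c k : ℕ) : List (Blk k) → Prop
  | win (S : List (Blk k)) (B : Blk k) (i : Fin k) : B ∈ S → c ≤ B.κ i → Force c k S
  | push (S : List (Blk k)) : Force c k (S ++ [Blk.emp k]) → Force c k S
  | merge (S : List (Blk k)) (B C : Blk k) :
      Force c k (S ++ [B.sup C]) → Force c k (S ++ [B, C])
  | cover (S : List (Blk k)) (B : Blk k) (Cs : List (Blk k)) (n : Fin k → ℕ) :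
      (∀ X ∈ B :: Cs, X.w + 1 ≤ c) →
      (∀ i, Force c k (S ++ [(Blk.join B (Cs.take (n i))).add i])) →
      Force c k (S ++ B :: Cs)

theorem join_w_le {k m : ℕ} : ∀ (Cs : List (Blk k)) (B : Blk k),
    (∀ X ∈ B :: Cs, X.w ≤ m) → (Blk.join B Cs).w ≤ m := by
  intro Cs
  induction Cs with
  | nil => intro B h; exact h B (by simp)
  | cons C Cs ih =>
    intro B h
    have h1 := ih C (fun X hX => h X (List.mem_cons_of_mem _ hX))
    have h2 := h B (by simp)
    simp only [Blk.join, Blk.sup]
    exact max_le h2 h1

theorem le_join_w {k : ℕ} : ∀ (Cs : List (Blk k)) (B : Blk k),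
    ∀ X ∈ B :: Cs, X.w ≤ (Blk.join B Cs).w := by
  intro Cs
  induction Cs with
  | nil => intro B X hX; simp at hX; subst hX; exact le_rfl
  | cons C Cs ih =>
    intro B X hX
    simp only [Blk.join, Blk.sup]
    rcases List.mem_cons.1 hX with rfl | hX
    · exact le_max_left _ _
    · exact le_trans (ih C X hX) (le_max_right _ _)

theorem le_join_κ {k : ℕ} (i : Fin k) : ∀ (Cs : List (Blk k)) (B : Blk k),
    ∀ X ∈ B :: Cs, X.κ i ≤ (Blk.join B Cs).κ i := by
  intro Cs
  induction Cs with
  | nil => intro B X hX; simp at hX; subst hX; exact le_rfl
  | cons C Cs ih =>
    intro B X hX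
    simp only [Blk.join, Blk.sup]
    rcases List.mem_cons.1 hX with rfl | hX
    · exact le_max_left _ _
    · exact le_trans (ih C X hX) (le_max_right _ _)

theorem join_κ_eq {k : ℕ} (i : Fin k) : ∀ (Cs : List (Blk k)) (B : Blk k),
    ∃ X ∈ B :: Cs, (Blk.join B Cs).κ i = X.κ i := by
  intro Cs
  induction Cs with
  | nil => intro B; exact ⟨B, by simp, rfl⟩
  | cons C Cs ih =>
    intro B
    obtain ⟨X, hX, hXe⟩ := ih C
    simp only [Blk.join, Blk.sup]
    rcases le_total ((Blk.join C Cs).κ i) (B.κ i) with h | h
    · exact ⟨B, by simp, max_eq_left h⟩
    · exact ⟨X, List.mem_cons_of_mem _ hX, by rw [max_eq_right h, hXe]⟩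

theorem mergeAll {c k : ℕ} : ∀ (Cs : List (Blk k)) (S : List (Blk k)) (B : Blk k),
    Force c k (S ++ [Blk.join B Cs]) → Force c k (S ++ B :: Cs) := by
  intro Cs
  induction Cs with
  | nil => intro S B h; exact h
  | cons C Cs ih =>
    intro S B h
    have h1 : Force c k (S ++ [B, Blk.join C Cs]) := Force.merge S B _ h
    have h2 : Force c k ((S ++ [B]) ++ [Blk.join C Cs]) := by simpa using h1
    have h3 := ih (S ++ [B]) C h2
    simpa using h3

/-- Guarded cover: covering blocks of clique number `< m` on top of `S` is possible, and only
the colours outside `A` have to be answered. -/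
def GM (c k m : ℕ) (A : Finset (Fin k)) (S : List (Blk k)) : Prop :=
  ∀ (T : List (Blk k)) (B : Blk k) (Cs : List (Blk k)),
    (∀ X ∈ T, X.w ≤ m) → (∀ X ∈ B :: Cs, X.w + 1 ≤ m) →
    (∀ i, i ∉ A → ∃ n, Force c k (S ++ T ++ [(Blk.join B (Cs.take n)).add i])) →
    Force c k (S ++ T ++ B :: Cs)

/-- The target: a block of clique number at most `j` with a clique of size `j` in a colour
outside `A` wins. -/
def Target (c k j : ℕ) (A : Finset (Fin k)) (S : List (Blk k)) : Prop :=
  ∀ i, i ∉ A → ∀ B : Blk k, B.w ≤ j → j ≤ B.κ i → Force c k (S ++ [B])

theorem GM.ext {c k m : ℕ} {A : Finset (Fin k)} {S : List (Blk k)} (h : GM c k m A S)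
    (T : List (Blk k)) (hT : ∀ X ∈ T, X.w ≤ m) : GM c k m A (S ++ T) := by
  intro T' B Cs hT' hB hcov
  have := h (T ++ T') B Cs (by
    intro X hX
    rcases List.mem_append.1 hX with hX | hX
    · exact hT X hX
    · exact hT' X hX) hB (by simpa using hcov)
  simpa using this

theorem Target.ext {c k j : ℕ} {A : Finset (Fin k)} {S : List (Blk k)} (h : Target c k j A S)
    (T : List (Blk k)) (hT : ∀ X ∈ T, X.w ≤ j) : Target c k j A (S ++ T) := by
  intro i hi B hw hk
  cases T with
  | nil => simpa using h i hi B hw hk
  | cons X T =>
    have h1 : Force c k (S ++ [Blk.join X (T ++ [B])]) := by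
      apply h i hi
      · apply join_w_le
        intro Y hY
        rcases List.mem_cons.1 hY with rfl | hY
        · exact hT _ (by simp)
        · rcases List.mem_append.1 hY with hY | hY
          · exact hT Y (List.mem_cons_of_mem _ hY)
          · simp at hY; subst hY; exact hw
      · exact le_trans hk (le_join_κ i _ _ B (by simp))
    have h2 := mergeAll (T ++ [B]) S X h1
    simpa using h2

/-- `B` has cliques of size `j` in `t` colours outside `A`. -/
def Have {k : ℕ} (j t : ℕ) (A : Finset (Fin k)) (B : Blk k) : Prop :=
  ∃ T : Finset (Fin k), Disjoint T A ∧ T.card = t ∧ ∀ i ∈ T, j ≤ B.κ i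

theorem collect {c k : ℕ} (j : ℕ)
    (IH : ∀ (A : Finset (Fin k)) (S : List (Blk k)), GM c k j A S → Target c k j A S → Force c k S)
    (A : Finset (Fin k)) : ∀ (t : ℕ) (S : List (Blk k)), GM c k (j+1) A S →
      Target c k (j+1) A S →
      (∀ B : Blk k, B.w ≤ j → Have j t A B → Force c k (S ++ [B])) → Force c k S := by
  intro t
  induction t with
  | zero =>
    intro S hG hT h
    apply Force.push
    exact h _ (Nat.zero_le _) ⟨∅, by simp, by simp, by simp⟩
  | succ t iht =>
    intro S hG hT h
    apply iht S hG hT
    rintro B hBw ⟨T, hTA, hTc, hTk⟩
    apply IH (A ∪ T) (S ++ [B])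
    · intro T' B1 Cs hT' hBC hcov
      have hext : ∀ X ∈ ([B] ++ T' ++ B1 :: Cs), X.w ≤ j + 1 := by
        intro X hX
        simp only [List.mem_append, List.mem_cons, List.not_mem_nil, or_false] at hX
        rcases hX with (rfl | hX) | hX
        · omega
        · have := hT' X hX; omega
        · have := hBC X (by simpa using hX); omega
      have key : Force c k (S ++ ([B] ++ T' ++ B1 :: Cs)) := by
        apply iht (S ++ ([B] ++ T' ++ B1 :: Cs)) (hG.ext _ hext) (hT.ext _ hext)
        rintro B2 hB2w ⟨T2, hT2A, hT2c, hT2k⟩
        by_cases hsub : T2 ⊆ T
        · have hTT : T2 = T := Finset.eq_of_subset_of_card_le hsub (by omega)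
          have h1 : Force c k (S ++ (B :: T') ++ B1 :: (Cs ++ [B2])) := by
            apply hG (B :: T') B1 (Cs ++ [B2])
            · intro X hX
              rcases List.mem_cons.1 hX with rfl | hX
              · omega
              · have := hT' X hX; omega
            · intro X hX
              rcases List.mem_cons.1 hX with rfl | hX
              · have := hBC X (by simp); omega
              · rcases List.mem_append.1 hX with hX | hX
                · have := hBC X (List.mem_cons_of_mem _ hX); omega
                · simp at hX; subst hX; omega
            · intro i hi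
              by_cases hiT : i ∈ T
              · refine ⟨Cs.length + 1, ?_⟩
                have htake : (Cs ++ [B2]).take (Cs.length + 1) = Cs ++ [B2] := by
                  apply List.take_of_length_le; simp
                rw [htake]
                have h2 : Target c k (j+1) A (S ++ (B :: T')) := by
                  apply hT.ext
                  intro X hX
                  rcases List.mem_cons.1 hX with rfl | hX
                  · omega
                  · have := hT' X hX; omega
                apply h2 i hi
                · simp only [Blk.add]
                  have : (Blk.join B1 (Cs ++ [B2])).w ≤ j := by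
                    apply join_w_le
                    intro X hX
                    rcases List.mem_cons.1 hX with rfl | hX
                    · have := hBC X (by simp); omega
                    · rcases List.mem_append.1 hX with hX | hX
                      · have := hBC X (List.mem_cons_of_mem _ hX); omega
                      · simp at hX; subst hX; omega
                  omega
                · simp only [Blk.add, Function.update_self]
                  have h3 := hT2k i (hTT ▸ hiT)
                  have h4 := le_join_κ i (Cs ++ [B2]) B1 B2 (by simp)
                  omega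
              · obtain ⟨n, hn⟩ := hcov i (by simp [hi, hiT])
                refine ⟨min n Cs.length, ?_⟩
                have htake : (Cs ++ [B2]).take (min n Cs.length) = Cs.take n := by
                  rw [List.take_append_of_le_length (by omega)]
                  rcases le_total n Cs.length with h | h
                  · rw [min_eq_left h]
                  · rw [min_eq_right h, List.take_length, List.take_of_length_le h]
                rw [htake]
                simpa using hn
          simpa using h1
        · have h1 : Force c k (S ++ [Blk.join B (T' ++ B1 :: (Cs ++ [B2]))]) := by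
            apply h
            · apply join_w_le
              intro X hX
              simp only [List.mem_append, List.mem_cons, List.not_mem_nil, or_false] at hX
              rcases hX with rfl | hX | rfl | hX | rfl
              · exact hBw
              · exact hT' X hX
              · have := hBC X (by simp); omega
              · have := hBC X (List.mem_cons_of_mem _ hX); omega
              · exact hB2w
            · obtain ⟨i0, hi0, hi0T⟩ := Finset.not_subset.1 hsub
              refine ⟨insert i0 T, ?_, ?_, ?_⟩
              · rw [Finset.disjoint_insert_left]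
                exact ⟨Finset.disjoint_left.1 hT2A hi0, hTA⟩
              · rw [Finset.card_insert_of_notMem hi0T, hTc]
              · intro i hi
                rcases Finset.mem_insert.1 hi with rfl | hi
                · exact le_trans (hT2k _ hi0) (le_join_κ _ _ _ B2 (by simp))
                · exact le_trans (hTk i hi) (le_join_κ _ _ _ B (by simp))
          have h2 := mergeAll _ _ _ h1
          simpa using h2
      simpa using key
    · intro i hi B' hw hk
      have h1 : Force c k (S ++ [B.sup B']) := by
        apply h
        · simp only [Blk.sup]; exact max_le hBw hw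
        · refine ⟨insert i T, ?_, ?_, ?_⟩
          · rw [Finset.disjoint_insert_left]
            exact ⟨fun h => hi (Finset.mem_union_left _ h), hTA⟩
          · rw [Finset.card_insert_of_notMem (fun h => hi (Finset.mem_union_right _ h)), hTc]
          · intro l hl
            simp only [Blk.sup]
            rcases Finset.mem_insert.1 hl with rfl | hl
            · exact le_trans hk (le_max_right _ _)
            · exact le_trans (hTk l hl) (le_max_left _ _)
      have h2 := Force.merge S B B' h1
      simpa using h2

theorem main {c k : ℕ} : ∀ (j : ℕ) (A : Finset (Fin k)) (S : List (Blk k)),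
    GM c k (j+1) A S → Target c k (j+1) A S → Force c k S := by
  intro j
  induction j with
  | zero =>
    intro A S hG hT
    apply Force.push
    have h1 := hG [] (Blk.emp k) [] (by simp) (by simp [Blk.emp]) (by
      intro i hi
      refine ⟨0, ?_⟩
      have := hT i hi ((Blk.emp k).add i) (by simp [Blk.add, Blk.emp]) (by simp [Blk.add, Blk.emp])
      simpa [Blk.join] using this)
    simpa using h1
  | succ j ih =>
    intro A S hG hT
    apply collect (j+1) ih A (k+1) S hG hT
    rintro B hBw ⟨T, -, hTc, -⟩
    exfalso
    have := Finset.card_le_univ T
    rw [Fintype.card_fin] at this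
    omega

/-- Presenter wins the stack game from the empty stack. -/
theorem force_nil (c k : ℕ) (hc : 1 ≤ c) : Force c k [] := by
  obtain ⟨j, rfl⟩ : ∃ j, c = j + 1 := ⟨c - 1, by omega⟩
  apply main j ∅ []
  · intro T B Cs hT hB hcov
    choose n hn using fun i => hcov i (by simp)
    apply Force.cover T B Cs n hB
    intro i
    simpa using hn i
  · intro i _ B _ hk
    exact Force.win _ B i (by simp) hk

end Pool.MP_ccb602_co.Folkman
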