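import Mathlib
import Pool.Agent.W_ccb602_h89.StackGame

/-!
# Realisation of the stack game by boxes in `ℝ³`

The coordinate `z` is time, the coordinate `x` carries the stack, and the branches of the
strategy tree are laid out on disjoint subintervals of the coordinate `y`.
-/

set_option autoImplicit false

namespace Pool.MP_ccb602_co.Folkman

open Classical

/-- A box in `ℝ³`. -/
@[ext] structure Box where
  x1 : ℝ
  x2 : ℝ
  y1 : ℝ
  y2 : ℝ
  z1 : ℝ
  z2 : ℝ

/-- Two boxes intersect. -/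
def Hit (a b : Box) : Prop :=
  a.x1 ≤ b.x2 ∧ b.x1 ≤ a.x2 ∧ a.y1 ≤ b.y2 ∧ b.y1 ≤ a.y2 ∧ a.z1 ≤ b.z2 ∧ b.z1 ≤ a.z2

theorem Hit.symm {a b : Box} (h : Hit a b) : Hit b a :=
  ⟨h.2.1, h.1, h.2.2.2.1, h.2.2.1, h.2.2.2.2.2, h.2.2.2.2.1⟩

/-- A nonempty box with `y`-side inside `[0,1]`. -/
def Ok (a : Box) : Prop := a.x1 ≤ a.x2 ∧ a.y1 ≤ a.y2 ∧ a.z1 ≤ a.z2 ∧ 0 ≤ a.y1 ∧ a.y2 ≤ 1

/-- A nonempty box with `y`-side equal to `[0,1]`. -/
def Full (a : Box) : Prop := a.x1 ≤ a.x2 ∧ a.y1 = 0 ∧ a.y2 = 1 ∧ a.z1 ≤ a.z2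

theorem Full.ok {a : Box} (h : Full a) : Ok a := by
  obtain ⟨h1, h2, h3, h4⟩ := h
  refine ⟨h1, ?_, h4, ?_, ?_⟩ <;> simp [h2, h3]

/-- A set of pairwise intersecting boxes. -/
def Clq (s : Finset Box) : Prop := ∀ a ∈ s, ∀ b ∈ s, Hit a b

theorem Clq.mono {s t : Finset Box} (h : Clq t) (hst : s ⊆ t) : Clq s :=
  fun a ha b hb => h a (hst ha) b (hst hb)

/-- The coloured family `L` can be extended to a finite family of boxes without a clique of
size `c + 1` in which every colouring extending the given one has a monochromatic clique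
of size `c`. -/
def Good (c k : ℕ) (L : Finset Box) (κ : Box → Fin k) : Prop :=
  ∃ F : Finset Box, L ⊆ F ∧ (∀ b ∈ F, Ok b) ∧ (∀ s ⊆ F, Clq s → s.card ≤ c) ∧
    ∀ col : Box → Fin k, (∀ b ∈ L, col b = κ b) →
      ∃ s ⊆ F, Clq s ∧ s.card = c ∧ ∃ i, ∀ b ∈ s, col b = i

/-- The affine image of a box in the `i`-th `y`-slot. -/
noncomputable def slot (k i : ℕ) (b : Box) : Box :=
  { b with y1 := (2 * i + 1 + b.y1) / (2 * k + 2), y2 := (2 * i + 1 + b.y2) / (2 * k + 2) }

theorem den_pos (k : ℕ) : (0 : ℝ) < 2 * k + 2 := by positivity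

theorem slot_inj (k i : ℕ) {a b : Box} (h : slot k i a = slot k i b) : a = b := by
  have hd := den_pos k
  simp only [slot, Box.mk.injEq] at h
  obtain ⟨h1, h2, h3, h4, h5, h6⟩ := h
  rw [div_left_inj' hd.ne'] at h3 h4
  ext
  · exact h1
  · exact h2
  · linarith
  · linarith
  · exact h5
  · exact h6

theorem slot_ok {k i : ℕ} (hi : i < k) {b : Box} (h : Ok b) : Ok (slot k i b) := by
  have hd := den_pos k
  obtain ⟨h1, h2, h3, h4, h5⟩ := h
  have hik : (i : ℝ) + 1 ≤ k := by exact_mod_cast hi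
  have hi0 : (0 : ℝ) ≤ i := Nat.cast_nonneg i
  refine ⟨h1, ?_, h3, ?_, ?_⟩
  · simp only [slot]; gcongr
  · simp only [slot]; apply div_nonneg <;> linarith
  · simp only [slot]; rw [div_le_one hd]; linarith

theorem slot_hit {k i : ℕ} {a b : Box} : Hit (slot k i a) (slot k i b) ↔ Hit a b := by
  have hd := den_pos k
  simp only [Hit, slot]
  rw [div_le_div_iff_of_pos_right hd, div_le_div_iff_of_pos_right hd, add_le_add_iff_left,
    add_le_add_iff_left]

theorem slot_hit_full {k i : ℕ} (hi : i < k) {a b : Box} (ha : Full a) (hb : Ok b) :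
    Hit a (slot k i b) ↔ Hit a b := by
  have hs := slot_ok hi hb
  obtain ⟨h1, h2, h3, h4, h5⟩ := hb
  obtain ⟨g1, g2, g3, g4, g5⟩ := hs
  have e1 : (slot k i b).x1 = b.x1 := rfl
  have e2 : (slot k i b).x2 = b.x2 := rfl
  have e3 : (slot k i b).z1 = b.z1 := rfl
  have e4 : (slot k i b).z2 = b.z2 := rfl
  simp only [Hit, e1, e2, e3, e4, ha.2.1, ha.2.2.1]
  constructor
  · rintro ⟨p1, p2, -, -, p5, p6⟩
    exact ⟨p1, p2, by linarith, by linarith, p5, p6⟩
  · rintro ⟨p1, p2, -, -, p5, p6⟩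
    exact ⟨p1, p2, by linarith, by linarith, p5, p6⟩

theorem slot_ne_full {k i : ℕ} {a b : Box} (ha : Full a) (hb : Ok b) : slot k i b ≠ a := by
  intro h
  have hd := den_pos k
  have h1 : (slot k i b).y1 = 0 := by rw [h]; exact ha.2.1
  simp only [slot] at h1
  rw [div_eq_zero_iff] at h1
  have hi0 : (0 : ℝ) ≤ i := Nat.cast_nonneg i
  have := hb.2.2.2.1
  rcases h1 with h1 | h1 <;> linarith

theorem slot_disj {k i j : ℕ} {a b : Box} (ha : Ok a) (hb : Ok b)
    (h : Hit (slot k i a) (slot k j b)) : i = j := by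
  have hd := den_pos k
  obtain ⟨-, -, h3, h4, -, -⟩ := h
  simp only [slot] at h3 h4
  rw [div_le_div_iff_of_pos_right hd] at h3 h4
  obtain ⟨_, _, _, a4, a5⟩ := ha
  obtain ⟨_, _, _, b4, b5⟩ := hb
  rcases lt_trichotomy i j with hij | hij | hij
  · exfalso
    have : (i : ℝ) + 1 ≤ j := by exact_mod_cast hij
    linarith
  · exact hij
  · exfalso
    have : (j : ℝ) + 1 ≤ i := by exact_mod_cast hij
    linarith

/-- Keep the boxes of `L`, move the others to the `i`-th slot. -/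
noncomputable def mv (k i : ℕ) (L : Finset Box) (b : Box) : Box := if b ∈ L then b else slot k i b

theorem mv_hit {k i : ℕ} (hi : i < k) {L : Finset Box} (hL : ∀ b ∈ L, Full b) {a b : Box}
    (ha : Ok a) (hb : Ok b) : Hit (mv k i L a) (mv k i L b) ↔ Hit a b := by
  unfold mv
  by_cases h1 : a ∈ L <;> by_cases h2 : b ∈ L <;> simp only [h1, h2, if_true, if_false]
  · exact slot_hit_full hi (hL a h1) hb
  · constructor
    · intro h; exact ((slot_hit_full hi (hL b h2) ha).1 h.symm).symm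
    · intro h; exact ((slot_hit_full hi (hL b h2) ha).2 h.symm).symm
  · exact slot_hit

theorem mv_inj {k i : ℕ} {L : Finset Box} (hL : ∀ b ∈ L, Full b) {a b : Box}
    (ha : Ok a) (hb : Ok b) (h : mv k i L a = mv k i L b) : a = b := by
  unfold mv at h
  by_cases h1 : a ∈ L <;> by_cases h2 : b ∈ L <;> simp only [h1, h2, if_true, if_false] at h
  · exact h
  · exact absurd h.symm (slot_ne_full (hL a h1) hb)
  · exact absurd h (slot_ne_full (hL b h2) ha)
  · exact slot_inj k i h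

theorem mv_ok {k i : ℕ} (hi : i < k) {L : Finset Box} {a : Box} (ha : Ok a) :
    Ok (mv k i L a) := by
  unfold mv
  split_ifs
  · exact ha
  · exact slot_ok hi ha

/-- One move of the on-line game. -/
theorem Good.move {c k : ℕ} {L : Finset Box} {κ : Box → Fin k} (v : Box)
    (hL : ∀ b ∈ insert v L, Full b) (hv : v ∉ L)
    (h : ∀ i : Fin k, Good c k (insert v L) (Function.update κ v i)) : Good c k L κ := by
  choose Fi h1 h2 h3 h4 using h
  have hkpos : 0 < k := lt_of_le_of_lt (Nat.zero_le _) (κ v).2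
  refine ⟨Finset.univ.biUnion fun i : Fin k => (Fi i).image (mv k i (insert v L)), ?_, ?_, ?_, ?_⟩
  · intro b hb
    simp only [Finset.mem_biUnion, Finset.mem_univ, true_and, Finset.mem_image]
    refine ⟨κ v, b, h1 _ (Finset.mem_insert_of_mem hb), ?_⟩
    simp [mv, hb]
  · intro b hb
    simp only [Finset.mem_biUnion, Finset.mem_univ, true_and, Finset.mem_image] at hb
    obtain ⟨i, a, ha, rfl⟩ := hb
    exact mv_ok i.2 (h2 i a ha)
  · intro s hs hclq
    -- all elements of `s` come from one slot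
    have hone : ∃ i : Fin k, s ⊆ (Fi i).image (mv k i (insert v L)) := by
      by_cases hall : s ⊆ insert v L
      · refine ⟨κ v, ?_⟩
        intro b hb
        rw [Finset.mem_image]
        exact ⟨b, h1 _ (hall hb), by simp [mv, hall hb]⟩
      · obtain ⟨b0, hb0, hb0L⟩ := Finset.not_subset.1 hall
        have hb0' := hs hb0
        simp only [Finset.mem_biUnion, Finset.mem_univ, true_and, Finset.mem_image] at hb0'
        obtain ⟨i, a0, ha0, ha0e⟩ := hb0'
        refine ⟨i, ?_⟩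
        intro b hb
        have hb' := hs hb
        simp only [Finset.mem_biUnion, Finset.mem_univ, true_and, Finset.mem_image] at hb'
        obtain ⟨j, a, ha, hae⟩ := hb'
        rw [Finset.mem_image]
        by_cases hbL : b ∈ insert v L
        · exact ⟨b, h1 _ hbL, by simp only [mv, hbL, if_true]⟩
        · have haL : a ∉ insert v L := by
            intro h; apply hbL; rw [← hae]; simp only [mv, h, if_true]
          have ha0L : a0 ∉ insert v L := by
            intro h; apply hb0L; rw [← ha0e]; simp only [mv, h, if_true]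
          have hhit := hclq b0 hb0 b hb
          rw [← hae, ← ha0e] at hhit
          simp only [mv, haL, ha0L, if_false] at hhit
          have hij : i = j := Fin.ext (slot_disj (h2 _ _ ha0) (h2 _ _ ha) hhit)
          subst hij
          exact ⟨a, ha, hae⟩
    obtain ⟨i, hi⟩ := hone
    have hsub : s ⊆ ((Fi i).filter fun b => mv k i (insert v L) b ∈ s).image
        (mv k i (insert v L)) := by
      intro b hb
      obtain ⟨a, ha, hae⟩ := Finset.mem_image.1 (hi hb)
      refine Finset.mem_image.2 ⟨a, Finset.mem_filter.2 ⟨ha, ?_⟩, hae⟩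
      rw [hae]; exact hb
    refine le_trans (Finset.card_le_card hsub) (le_trans Finset.card_image_le ?_)
    apply h3 i _ (Finset.filter_subset _ _)
    intro a ha b hb
    rw [Finset.mem_filter] at ha hb
    exact (mv_hit i.2 hL (h2 _ _ ha.1) (h2 _ _ hb.1)).1 (hclq _ ha.2 _ hb.2)
  · intro col hcol
    obtain ⟨s, hs, hclq, hcard, j, hj⟩ := h4 (col v) (fun b => col (mv k (col v) (insert v L) b)) (by
      intro b hb
      have : mv k (col v) (insert v L) b = b := by simp only [mv, hb, if_true]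
      rw [this]
      rcases Finset.mem_insert.1 hb with rfl | hbL
      · simp
      · have hbv : b ≠ v := by
          intro h; rw [h] at hbL; exact hv hbL
        rw [Function.update_of_ne hbv]
        exact hcol b hbL)
    refine ⟨s.image (mv k (col v) (insert v L)), ?_, ?_, ?_, j, ?_⟩
    · intro b hb
      obtain ⟨a, ha, rfl⟩ := Finset.mem_image.1 hb
      simp only [Finset.mem_biUnion, Finset.mem_univ, true_and]
      exact ⟨col v, Finset.mem_image_of_mem _ (hs ha)⟩
    · intro a ha b hb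
      obtain ⟨a', ha', rfl⟩ := Finset.mem_image.1 ha
      obtain ⟨b', hb', rfl⟩ := Finset.mem_image.1 hb
      exact (mv_hit (col v).2 hL (h2 _ _ (hs ha')) (h2 _ _ (hs hb'))).2 (hclq _ ha' _ hb')
    · rw [Finset.card_image_of_injOn, hcard]
      intro a ha b hb hab
      exact mv_inj hL (h2 _ _ (hs ha)) (h2 _ _ (hs hb)) hab
    · intro b hb
      obtain ⟨b', hb', rfl⟩ := Finset.mem_image.1 hb
      exact hj b' hb'

/-- A block of the stack with its geometry: `x`-region `[lo, hi]`, the cliques counted by `B.κ`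
live at least until `D`, everything alive in the region is dead after `U`. -/
structure GB (k : ℕ) where
  lo : ℝ
  hi : ℝ
  D : ℝ
  U : ℝ
  B : Blk k

/-- A geometric realisation of the stack `gs` at time `z0`. -/
structure Inv (c k : ℕ) (L : Finset Box) (κ : Box → Fin k) (z0 : ℝ) (gs : List (GB k)) :
    Prop where
  full : ∀ b ∈ L, Full b ∧ b.z1 ≤ z0
  clq : ∀ s ⊆ L, Clq s → s.card ≤ c
  ord : gs.Pairwise fun g h => g.hi < h.lo ∧ h.U < g.D
  geo : ∀ g ∈ gs, g.lo ≤ g.hi ∧ z0 < g.D ∧ g.D ≤ g.U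
  cov : ∀ b ∈ L, z0 < b.z2 → ∃ g ∈ gs, g.lo ≤ b.x1 ∧ b.x2 ≤ g.hi ∧ b.z2 ≤ g.U
  wle : ∀ g ∈ gs, ∀ s ⊆ L, Clq s → (∀ b ∈ s, z0 < b.z2 ∧ g.lo ≤ b.x1 ∧ b.x2 ≤ g.hi) →
    s.card ≤ g.B.w
  κle : ∀ g ∈ gs, ∀ i, ∃ s ⊆ L, Clq s ∧
    (∀ b ∈ s, g.D ≤ b.z2 ∧ g.lo ≤ b.x1 ∧ b.x2 ≤ g.hi ∧ κ b = i) ∧ g.B.κ i ≤ s.card

theorem Inv.sep {c k : ℕ} {L : Finset Box} {κ : Box → Fin k} {z0 : ℝ} {gs : List (GB k)}
    (h : Inv c k L κ z0 gs) : ∀ g ∈ gs, ∀ g' ∈ gs, g = g' ∨ g.hi < g'.lo ∨ g'.hi < g.lo := by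
  have : Std.Symm (fun g g' : GB k => g = g' ∨ g.hi < g'.lo ∨ g'.hi < g.lo) := by
    constructor
    rintro x y (rfl | h | h)
    · exact Or.inl rfl
    · exact Or.inr (Or.inr h)
    · exact Or.inr (Or.inl h)
  apply List.Pairwise.forall_of_forall (R := fun g g' : GB k => g = g' ∨ g.hi < g'.lo ∨ g'.hi < g.lo)
  · intro x _; exact Or.inl rfl
  · exact h.ord.imp fun h => Or.inr (Or.inl h.1)

/-- All members of an alive clique lie in the region of one block. -/
theorem Inv.single {c k : ℕ} {L : Finset Box} {κ : Box → Fin k} {z0 : ℝ} {gs : List (GB k)}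
    (h : Inv c k L κ z0 gs) {s : Finset Box} (hs : s ⊆ L) (hclq : Clq s)
    (halive : ∀ b ∈ s, z0 < b.z2) (hne : s.Nonempty) :
    ∃ g ∈ gs, ∀ b ∈ s, g.lo ≤ b.x1 ∧ b.x2 ≤ g.hi ∧ b.z2 ≤ g.U := by
  obtain ⟨b0, hb0⟩ := hne
  obtain ⟨g, hg, hg1, hg2, hg3⟩ := h.cov b0 (hs hb0) (halive b0 hb0)
  refine ⟨g, hg, ?_⟩
  intro b hb
  obtain ⟨g', hg', h1, h2, h3⟩ := h.cov b (hs hb) (halive b hb)
  have hhit := hclq b0 hb0 b hb
  rcases h.sep g hg g' hg' with rfl | hlt | hlt
  · exact ⟨h1, h2, h3⟩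
  · exfalso; have := hhit.2.1; linarith
  · exfalso; have := hhit.1; linarith

theorem exists_gt_list (l : List ℝ) : ∃ x, ∀ a ∈ l, a < x := by
  induction l with
  | nil => exact ⟨0, by simp⟩
  | cons a l ih =>
    obtain ⟨x, hx⟩ := ih
    refine ⟨max x (a + 1), ?_⟩
    intro b hb
    rcases List.mem_cons.1 hb with rfl | hb
    · exact lt_of_lt_of_le (by linarith) (le_max_right _ _)
    · exact lt_of_lt_of_le (hx b hb) (le_max_left _ _)

theorem exists_between_list (z : ℝ) (l : List ℝ) (h : ∀ a ∈ l, z < a) :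
    ∃ d, z < d ∧ ∀ a ∈ l, d < a := by
  induction l with
  | nil => exact ⟨z + 1, by linarith, by simp⟩
  | cons a l ih =>
    obtain ⟨d, hd, hd'⟩ := ih (fun b hb => h b (List.mem_cons_of_mem _ hb))
    have ha := h a (by simp)
    refine ⟨min d ((z + a) / 2), lt_min hd (by linarith), ?_⟩
    intro b hb
    rcases List.mem_cons.1 hb with rfl | hb
    · exact lt_of_le_of_lt (min_le_right _ _) (by linarith)
    · exact lt_of_le_of_lt (min_le_left _ _) (hd' b hb)

theorem exists_time (β : ℝ) (l1 l2 : List ℝ) (h : ∀ a ∈ l1, ∀ b ∈ l2, a < b)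
    (hβ : ∀ b ∈ l2, β < b) : ∃ z, β ≤ z ∧ (∀ a ∈ l1, a ≤ z) ∧ ∀ b ∈ l2, z < b := by
  induction l1 with
  | nil => exact ⟨β, le_rfl, by simp, hβ⟩
  | cons a l ih =>
    obtain ⟨z, h1, h2, h3⟩ := ih (fun b hb => h b (List.mem_cons_of_mem _ hb))
    refine ⟨max z a, le_trans h1 (le_max_left _ _), ?_, ?_⟩
    · intro b hb
      rcases List.mem_cons.1 hb with rfl | hb
      · exact le_max_right _ _
      · exact le_trans (h2 b hb) (le_max_left _ _)
    · intro b hb
      exact max_lt (h3 b hb) (h a (by simp) b hb)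

end Pool.MP_ccb602_co.Folkman
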