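import Mathlib
import Pool.Agent.W_ccb602_h89.Realize

/-!
# The rules of the stack game are realisable by boxes
-/

set_option autoImplicit false

namespace Pool.MP_ccb602_co.Folkman

open Classical

variable {c k : ℕ}

theorem Inv.win {L : Finset Box} {κ : Box → Fin k} {z0 : ℝ} {gs : List (GB k)}
    (h : Inv c k L κ z0 gs) {g : GB k} (hg : g ∈ gs) {i : Fin k} (hc : c ≤ g.B.κ i) :
    Good c k L κ := by
  obtain ⟨s, hs, hclq, hs2, hcard⟩ := h.κle g hg i
  obtain ⟨t, hts, htc⟩ := Finset.exists_subset_card_eq (le_trans hc hcard)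
  refine ⟨L, Finset.Subset.refl _, fun b hb => (h.full b hb).1.ok, h.clq, ?_⟩
  intro col hcol
  refine ⟨t, hts.trans hs, hclq.mono hts, htc, i, ?_⟩
  intro b hb
  rw [hcol b (hs (hts hb))]
  exact (hs2 b (hts hb)).2.2.2

theorem Inv.push {L : Finset Box} {κ : Box → Fin k} {z0 : ℝ} {gs : List (GB k)}
    (h : Inv c k L κ z0 gs) : ∃ g : GB k, g.B = Blk.emp k ∧ Inv c k L κ z0 (gs ++ [g]) := by
  obtain ⟨X, hX⟩ := exists_gt_list (gs.map GB.hi)
  obtain ⟨d, hd, hd'⟩ := exists_between_list z0 (gs.map GB.D) (by
    intro a ha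
    obtain ⟨g, hg, rfl⟩ := List.mem_map.1 ha
    exact (h.geo g hg).2.1)
  have hX' : ∀ g ∈ gs, g.hi < X := fun g hg => hX _ (List.mem_map_of_mem hg)
  have hD' : ∀ g ∈ gs, d < g.D := fun g hg => hd' _ (List.mem_map_of_mem hg)
  refine ⟨⟨X, X, d, d, Blk.emp k⟩, rfl, ?_⟩
  refine ⟨h.full, h.clq, ?_, ?_, ?_, ?_, ?_⟩
  · rw [List.pairwise_append]
    refine ⟨h.ord, by simp, ?_⟩
    intro a ha b hb
    simp only [List.mem_singleton] at hb
    subst hb
    exact ⟨hX' a ha, hD' a ha⟩
  · intro g hg
    rcases List.mem_append.1 hg with hg | hg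
    · exact h.geo g hg
    · simp only [List.mem_singleton] at hg
      subst hg
      exact ⟨le_rfl, hd, le_rfl⟩
  · intro b hb hz
    obtain ⟨g, hg, hg'⟩ := h.cov b hb hz
    exact ⟨g, List.mem_append_left _ hg, hg'⟩
  · intro g hg s hs hclq hb
    rcases List.mem_append.1 hg with hg | hg
    · exact h.wle g hg s hs hclq hb
    · simp only [List.mem_singleton] at hg
      subst hg
      rcases s.eq_empty_or_nonempty with rfl | ⟨b, hbs⟩
      · simp
      · exfalso
        obtain ⟨g, hg, h1, h2, -⟩ := h.cov b (hs hbs) (hb b hbs).1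
        have h3 := (hb b hbs).2.1
        have h4 := hX' g hg
        have h5 := (h.full b (hs hbs)).1.1
        simp only at h3
        linarith
  · intro g hg i
    rcases List.mem_append.1 hg with hg | hg
    · exact h.κle g hg i
    · simp only [List.mem_singleton] at hg
      subst hg
      exact ⟨∅, by simp, by intro a ha; simp at ha, by simp, by simp [Blk.emp]⟩

theorem Inv.merge {L : Finset Box} {κ : Box → Fin k} {z0 : ℝ} {gs : List (GB k)} {g g' : GB k}
    (h : Inv c k L κ z0 (gs ++ [g, g'])) :
    Inv c k L κ z0 (gs ++ [⟨g.lo, g'.hi, g'.D, g.U, g.B.sup g'.B⟩]) := by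
  have hgm : g ∈ gs ++ [g, g'] := by simp
  have hgm' : g' ∈ gs ++ [g, g'] := by simp
  have hord := h.ord
  rw [List.pairwise_append] at hord
  obtain ⟨ho1, ho2, ho3⟩ := hord
  have hgg : g.hi < g'.lo ∧ g'.U < g.D := by
    simp only [List.pairwise_cons, List.mem_singleton, forall_eq] at ho2
    exact ho2.1
  have hg := h.geo g hgm
  have hg' := h.geo g' hgm'
  have hpre : ∀ a ∈ gs, a.hi < g.lo ∧ g.U < a.D := fun a ha => ho3 a ha g (by simp)
  refine ⟨h.full, h.clq, ?_, ?_, ?_, ?_, ?_⟩
  · rw [List.pairwise_append]
    refine ⟨ho1, by simp, ?_⟩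
    intro a ha b hb
    simp only [List.mem_singleton] at hb
    subst hb
    exact hpre a ha
  · intro a ha
    rcases List.mem_append.1 ha with ha | ha
    · exact h.geo a (List.mem_append_left _ ha)
    · simp only [List.mem_singleton] at ha
      subst ha
      refine ⟨?_, hg'.2.1, ?_⟩
      · simp only; linarith [hg.1, hg'.1]
      · simp only; linarith [hg'.2.2, hg.2.2]
  · intro b hb hz
    obtain ⟨a, ha, h1, h2, h3⟩ := h.cov b hb hz
    rcases List.mem_append.1 ha with ha | ha
    · exact ⟨a, List.mem_append_left _ ha, h1, h2, h3⟩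
    · refine ⟨⟨g.lo, g'.hi, g'.D, g.U, g.B.sup g'.B⟩, by simp, ?_⟩
      simp only [List.mem_cons, List.not_mem_nil, or_false] at ha
      rcases ha with rfl | rfl
      · exact ⟨h1, by simp only; linarith [hg'.1], h3⟩
      · exact ⟨by simp only; linarith [hg.1], h2, by simp only; linarith [hg.2.2]⟩
  · intro a ha s hs hclq hb
    rcases List.mem_append.1 ha with ha | ha
    · exact h.wle a (List.mem_append_left _ ha) s hs hclq hb
    · simp only [List.mem_singleton] at ha
      subst ha
      rcases s.eq_empty_or_nonempty with rfl | hne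
      · simp
      · obtain ⟨a, ha, haR⟩ := h.single hs hclq (fun b hb' => (hb b hb').1) hne
        simp only [Blk.sup]
        rcases List.mem_append.1 ha with ha' | ha'
        · exfalso
          obtain ⟨b, hbs⟩ := hne
          have h1 := (haR b hbs).2.1
          have h2 := (hpre a ha').1
          have h3 := (hb b hbs).2.1
          have h4 := (h.full b (hs hbs)).1.1
          simp only at h3
          linarith
        · have hcard := h.wle a ha s hs hclq (fun b hb' =>
            ⟨(hb b hb').1, (haR b hb').1, (haR b hb').2.1⟩)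
          simp only [List.mem_cons, List.not_mem_nil, or_false] at ha'
          rcases ha' with rfl | rfl
          · exact le_trans hcard (le_max_left _ _)
          · exact le_trans hcard (le_max_right _ _)
  · intro a ha i
    rcases List.mem_append.1 ha with ha | ha
    · exact h.κle a (List.mem_append_left _ ha) i
    · simp only [List.mem_singleton] at ha
      subst ha
      simp only [Blk.sup]
      rcases le_total (g.B.κ i) (g'.B.κ i) with hle | hle
      · obtain ⟨s, hs, hclq, h1, h2⟩ := h.κle g' hgm' i
        refine ⟨s, hs, hclq, ?_, by rw [max_eq_right hle]; exact h2⟩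
        intro b hb
        obtain ⟨p1, p2, p3, p4⟩ := h1 b hb
        exact ⟨p1, by linarith [hg.1], p3, p4⟩
      · obtain ⟨s, hs, hclq, h1, h2⟩ := h.κle g hgm i
        refine ⟨s, hs, hclq, ?_, by rw [max_eq_left hle]; exact h2⟩
        intro b hb
        obtain ⟨p1, p2, p3, p4⟩ := h1 b hb
        exact ⟨by linarith [hg'.2.2], p2, by linarith [hg'.1], p4⟩

/-- The box used in a cover move. -/
noncomputable def newBox (lo H β D : ℝ) : Box := ⟨lo, H, 0, 1, β, D⟩

theorem Inv.cover {L : Finset Box} {κ : Box → Fin k} {z0 : ℝ} {gs : List (GB k)} {g : GB k}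
    {Cs : List (GB k)} (h : Inv c k L κ z0 (gs ++ g :: Cs))
    (hw : ∀ X ∈ g :: Cs, X.B.w + 1 ≤ c) :
    ∃ v : Box, v ∉ L ∧ (∀ b ∈ insert v L, Full b) ∧ ∀ (i : Fin k) (n : ℕ),
      ∃ (z' : ℝ) (g' : GB k), g'.B = (Blk.join g.B ((Cs.take n).map GB.B)).add i ∧
        Inv c k (insert v L) (Function.update κ v i) z' (gs ++ [g']) := by
  have hgm : g ∈ gs ++ g :: Cs := by simp
  have hCm : ∀ X ∈ g :: Cs, X ∈ gs ++ g :: Cs := fun X hX => List.mem_append_right _ hX
  have hord := h.ord
  rw [List.pairwise_append] at hord
  obtain ⟨ho1, ho2, ho3⟩ := hord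
  have hpre : ∀ a ∈ gs, a.hi < g.lo ∧ g.U < a.D := fun a ha => ho3 a ha g (by simp)
  have hgC : ∀ X ∈ Cs, g.hi < X.lo ∧ X.U < g.D := (List.pairwise_cons.1 ho2).1
  have hg := h.geo g hgm
  obtain ⟨H, hH⟩ := exists_gt_list ((g :: Cs).map GB.hi)
  have hH' : ∀ X ∈ g :: Cs, X.hi < H := fun X hX => hH _ (List.mem_map_of_mem hX)
  obtain ⟨β, hβ0, hβ⟩ := exists_between_list z0 ((gs ++ g :: Cs).map GB.D) (by
    intro a ha
    obtain ⟨X, hX, rfl⟩ := List.mem_map.1 ha
    exact (h.geo X hX).2.1)
  have hβD : ∀ X ∈ gs ++ g :: Cs, β < X.D := fun X hX => hβ _ (List.mem_map_of_mem hX)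
  have hloC : ∀ X ∈ g :: Cs, g.lo ≤ X.lo := by
    intro X hX
    rcases List.mem_cons.1 hX with rfl | hX
    · exact le_rfl
    · linarith [(hgC X hX).1, hg.1]
  have hUC : ∀ X ∈ g :: Cs, X.U ≤ g.U := by
    intro X hX
    rcases List.mem_cons.1 hX with rfl | hX
    · exact le_rfl
    · linarith [(hgC X hX).2, hg.2.2]
  set v : Box := newBox g.lo H β g.D with hv
  have hvfull : Full v := by
    refine ⟨?_, rfl, rfl, ?_⟩
    · simp only [hv, newBox]; linarith [hH' g (by simp), hg.1]
    · simp only [hv, newBox]; linarith [hβD g hgm]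
  have hvL : v ∉ L := by
    intro hmem
    have := (h.full v hmem).2
    simp only [hv, newBox] at this
    linarith
  -- cliques of `L` all of whose members meet `v`
  have hmeet : ∀ s ⊆ L, Clq s → (∀ b ∈ s, Hit v b) → s.Nonempty →
      ∃ X ∈ g :: Cs, ∀ b ∈ s, X.lo ≤ b.x1 ∧ b.x2 ≤ X.hi ∧ b.z2 ≤ X.U := by
    intro s hs hclq hvb hne
    have halive : ∀ b ∈ s, z0 < b.z2 := by
      intro b hb
      have := (hvb b hb).2.2.2.2.1
      simp only [hv, newBox] at this
      linarith
    obtain ⟨X, hX, hXs⟩ := h.single hs hclq halive hne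
    rcases List.mem_append.1 hX with hX' | hX'
    · exfalso
      obtain ⟨b, hb⟩ := hne
      have h1 := (hXs b hb).2.1
      have h2 := (hpre X hX').1
      have h3 := (hvb b hb).1
      simp only [hv, newBox] at h3
      linarith
    · exact ⟨X, hX', hXs⟩
  have hfull' : ∀ b ∈ insert v L, Full b := by
    intro b hb
    rcases Finset.mem_insert.1 hb with rfl | hb
    · exact hvfull
    · exact (h.full b hb).1
  refine ⟨v, hvL, hfull', ?_⟩
  intro i n
  -- the new time
  obtain ⟨z', hz1, hz2, hz3⟩ := exists_time β ((Cs.drop n).map GB.U)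
    ((gs ++ g :: Cs.take n).map GB.D) (by
      intro a ha b hb
      obtain ⟨X, hX, rfl⟩ := List.mem_map.1 ha
      obtain ⟨Y, hY, rfl⟩ := List.mem_map.1 hb
      have hXC : X ∈ Cs := List.mem_of_mem_drop hX
      rcases List.mem_append.1 hY with hY | hY
      · have h1 := (hpre Y hY).2
        have h2 := hUC X (List.mem_cons_of_mem _ hXC)
        linarith
      · rcases List.mem_cons.1 hY with rfl | hY
        · exact (hgC X hXC).2
        · have ho4 := (List.pairwise_cons.1 ho2).2
          rw [← List.take_append_drop n Cs, List.pairwise_append] at ho4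
          exact (ho4.2.2 Y hY X hX).2) (by
      intro b hb
      obtain ⟨Y, hY, rfl⟩ := List.mem_map.1 hb
      apply hβD
      rcases List.mem_append.1 hY with hY | hY
      · exact List.mem_append_left _ hY
      · apply List.mem_append_right
        rcases List.mem_cons.1 hY with rfl | hY
        · simp
        · exact List.mem_cons_of_mem _ (List.mem_of_mem_take hY))
  have hz2' : ∀ X ∈ Cs.drop n, X.U ≤ z' := fun X hX => hz2 _ (List.mem_map_of_mem hX)
  have hz3' : ∀ X ∈ gs ++ g :: Cs.take n, z' < X.D := fun X hX => hz3 _ (List.mem_map_of_mem hX)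
  obtain ⟨d, hd0, hd⟩ := exists_between_list z' ((g :: Cs.take n).map GB.D) (by
    intro a ha
    obtain ⟨X, hX, rfl⟩ := List.mem_map.1 ha
    exact hz3' X (List.mem_append_right _ hX))
  have hd' : ∀ X ∈ g :: Cs.take n, d < X.D := fun X hX => hd _ (List.mem_map_of_mem hX)
  have hdg := hd' g (by simp)
  have htake : ∀ X ∈ g :: Cs.take n, X ∈ g :: Cs := by
    intro X hX
    rcases List.mem_cons.1 hX with rfl | hX
    · simp
    · exact List.mem_cons_of_mem _ (List.mem_of_mem_take hX)
  have hjoinw : ∀ X ∈ g :: Cs.take n, X.B.w ≤ (Blk.join g.B ((Cs.take n).map GB.B)).w := by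
    intro X hX
    apply le_join_w
    have : X.B ∈ (g :: Cs.take n).map GB.B := List.mem_map_of_mem hX
    simpa using this
  refine ⟨z', ⟨g.lo, H, d, g.U, (Blk.join g.B ((Cs.take n).map GB.B)).add i⟩, rfl, ?_⟩
  refine ⟨?_, ?_, ?_, ?_, ?_, ?_, ?_⟩
  · intro b hb
    refine ⟨hfull' b hb, ?_⟩
    rcases Finset.mem_insert.1 hb with rfl | hb
    · simp only [hv, newBox]; exact hz1
    · linarith [(h.full b hb).2]
  · intro s hs hclq
    by_cases hvs : v ∈ s
    · have hs' : s.erase v ⊆ L := by
        intro b hb
        rw [Finset.mem_erase] at hb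
        exact Finset.mem_of_mem_insert_of_ne (hs hb.2) hb.1
      have hcard : s.card = (s.erase v).card + 1 := (Finset.card_erase_add_one hvs).symm
      rcases (s.erase v).eq_empty_or_nonempty with he | hne
      · rw [hcard, he, Finset.card_empty]
        have := hw g (by simp); omega
      · obtain ⟨X, hX, hXs⟩ := hmeet (s.erase v) hs' (hclq.mono (Finset.erase_subset _ _))
          (fun b hb => hclq v hvs b (Finset.mem_of_mem_erase hb)) hne
        have hle := h.wle X (hCm X hX) (s.erase v) hs' (hclq.mono (Finset.erase_subset _ _)) (by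
          intro b hb
          refine ⟨?_, (hXs b hb).1, (hXs b hb).2.1⟩
          have := (hclq v hvs b (Finset.mem_of_mem_erase hb)).2.2.2.2.1
          simp only [hv, newBox] at this
          linarith)
        have := hw X hX
        omega
    · exact h.clq s (fun b hb => Finset.mem_of_mem_insert_of_ne (hs hb)
        (by rintro rfl; exact hvs hb)) hclq
  · rw [List.pairwise_append]
    refine ⟨ho1, by simp, ?_⟩
    intro a ha b hb
    simp only [List.mem_singleton] at hb
    subst hb
    exact hpre a ha
  · intro a ha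
    rcases List.mem_append.1 ha with ha | ha
    · refine ⟨(h.geo a (List.mem_append_left _ ha)).1, hz3' a (List.mem_append_left _ ha),
        (h.geo a (List.mem_append_left _ ha)).2.2⟩
    · simp only [List.mem_singleton] at ha
      subst ha
      refine ⟨?_, hd0, ?_⟩
      · simp only; linarith [hH' g (by simp), hg.1]
      · simp only; linarith [hg.2.2]
  · intro b hb hz
    rcases Finset.mem_insert.1 hb with rfl | hb
    · refine ⟨⟨g.lo, H, d, g.U, (Blk.join g.B ((Cs.take n).map GB.B)).add i⟩, by simp, ?_⟩
      simp only [hv, newBox]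
      exact ⟨le_rfl, le_rfl, hg.2.2⟩
    · obtain ⟨X, hX, h1, h2, h3⟩ := h.cov b hb (by linarith)
      rcases List.mem_append.1 hX with hX | hX
      · exact ⟨X, List.mem_append_left _ hX, h1, h2, h3⟩
      · refine ⟨⟨g.lo, H, d, g.U, (Blk.join g.B ((Cs.take n).map GB.B)).add i⟩, by simp, ?_⟩
        simp only
        refine ⟨?_, ?_, ?_⟩
        · linarith [hloC X hX]
        · linarith [hH' X hX]
        · linarith [hUC X hX]
  · intro a ha s hs hclq hb
    rcases List.mem_append.1 ha with ha | ha
    · -- an old block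
      have hvs : v ∉ s := by
        intro hvs
        have h1 := (hb v hvs).2.2
        have h2 := (hpre a ha).1
        simp only [hv, newBox] at h1
        linarith [hH' g (by simp), hg.1]
      apply h.wle a (List.mem_append_left _ ha) s _ hclq
      · intro b hbs
        exact ⟨by linarith [(hb b hbs).1], (hb b hbs).2⟩
      · intro b hbs
        exact Finset.mem_of_mem_insert_of_ne (hs hbs) (by rintro rfl; exact hvs hbs)
    · simp only [List.mem_singleton] at ha
      subst ha
      simp only at hb
      have hs' : s.erase v ⊆ L := by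
        intro b hb
        rw [Finset.mem_erase] at hb
        exact Finset.mem_of_mem_insert_of_ne (hs hb.2) hb.1
      have hle : s.card ≤ (s.erase v).card + 1 := by
        have := Finset.pred_card_le_card_erase (s := s) (a := v)
        omega
      have hle2 : (s.erase v).card ≤ (Blk.join g.B ((Cs.take n).map GB.B)).w := by
        rcases (s.erase v).eq_empty_or_nonempty with he | hne
        · rw [he]; simp
        · obtain ⟨X, hX, hXs⟩ := h.single hs' (hclq.mono (Finset.erase_subset _ _))
            (fun b hbs => by linarith [(hb b (Finset.mem_of_mem_erase hbs)).1]) hne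
          have hcard := h.wle X hX (s.erase v) hs' (hclq.mono (Finset.erase_subset _ _))
            (fun b hbs => ⟨by linarith [(hb b (Finset.mem_of_mem_erase hbs)).1],
              (hXs b hbs).1, (hXs b hbs).2.1⟩)
          obtain ⟨b, hbs⟩ := hne
          have hbR := hb b (Finset.mem_of_mem_erase hbs)
          have hbX := hXs b hbs
          have hbf := (h.full b (hs' hbs)).1.1
          rcases List.mem_append.1 hX with hX' | hX'
          · exfalso
            have := (hpre X hX').1
            linarith [hbR.2.1]
          · rcases List.mem_cons.1 hX' with rfl | hX'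
            · exact le_trans hcard (hjoinw _ (by simp))
            · rw [← List.take_append_drop n Cs] at hX'
              rcases List.mem_append.1 hX' with hX' | hX'
              · exact le_trans hcard (hjoinw X (List.mem_cons_of_mem _ hX'))
              · exfalso
                have := hz2' X hX'
                linarith [hbR.1, hbX.2.2]
      simp only [Blk.add]
      omega
  · intro a ha j
    rcases List.mem_append.1 ha with ha | ha
    · obtain ⟨s, hs, hclq, h1, h2⟩ := h.κle a (List.mem_append_left _ ha) j
      refine ⟨s, fun b hb => Finset.mem_insert_of_mem (hs hb), hclq, ?_, h2⟩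
      intro b hb
      obtain ⟨p1, p2, p3, p4⟩ := h1 b hb
      refine ⟨p1, p2, p3, ?_⟩
      rw [Function.update_of_ne (by rintro rfl; exact hvL (hs hb))]
      exact p4
    · simp only [List.mem_singleton] at ha
      subst ha
      obtain ⟨Y, hY, hYe⟩ := join_κ_eq j ((Cs.take n).map GB.B) g.B
      have hY' : Y ∈ (g :: Cs.take n).map GB.B := by simpa using hY
      obtain ⟨X, hX, rfl⟩ := List.mem_map.1 hY'
      have hXm := hCm X (htake X hX)
      obtain ⟨s, hs, hclq, h1, h2⟩ := h.κle X hXm j
      have hreg : ∀ b ∈ s, d ≤ b.z2 ∧ g.lo ≤ b.x1 ∧ b.x2 ≤ H ∧ κ b = j := by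
        intro b hb
        obtain ⟨p1, p2, p3, p4⟩ := h1 b hb
        exact ⟨by linarith [hd' X hX], by linarith [hloC X (htake X hX)],
          by linarith [hH' X (htake X hX)], p4⟩
      by_cases hij : j = i
      · subst hij
        refine ⟨insert v s, Finset.insert_subset_insert _ hs, ?_, ?_, ?_⟩
        · have hvb : ∀ b ∈ s, Hit v b := by
            intro b hb
            obtain ⟨p1, p2, p3, p4⟩ := hreg b hb
            have hf := h.full b (hs hb)
            have q1 := hβD X hXm
            have q2 := (h1 b hb).1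
            have q3 := hf.1.1
            refine ⟨?_, ?_, ?_, ?_, ?_, ?_⟩
            · simp only [hv, newBox]; linarith
            · simp only [hv, newBox]; linarith
            · simp only [hv, newBox, hf.1.2.2.1]; norm_num
            · simp only [hv, newBox, hf.1.2.1]; norm_num
            · simp only [hv, newBox]; linarith
            · simp only [hv, newBox]; linarith [hf.2, hβD g hgm]
          have hvv : Hit v v :=
            ⟨hvfull.1, hvfull.1, by rw [hvfull.2.1, hvfull.2.2.1]; norm_num,
              by rw [hvfull.2.1, hvfull.2.2.1]; norm_num, hvfull.2.2.2, hvfull.2.2.2⟩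
          intro a ha b hb
          rcases Finset.mem_insert.1 ha with rfl | ha <;>
            rcases Finset.mem_insert.1 hb with rfl | hb
          · exact hvv
          · exact hvb b hb
          · exact (hvb a ha).symm
          · exact hclq a ha b hb
        · intro b hb
          rcases Finset.mem_insert.1 hb with rfl | hb
          · refine ⟨?_, ?_, ?_, by simp⟩
            · simp only [hv, newBox]; linarith
            · simp only [hv, newBox]; exact le_rfl
            · simp only [hv, newBox]; exact le_rfl
          · obtain ⟨p1, p2, p3, p4⟩ := hreg b hb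
            refine ⟨p1, p2, p3, ?_⟩
            rw [Function.update_of_ne (by rintro rfl; exact hvL (hs hb))]
            exact p4
        · rw [Finset.card_insert_of_notMem (fun hmem => hvL (hs hmem))]
          simp only [Blk.add, Function.update_self]
          omega
      · refine ⟨s, fun b hb => Finset.mem_insert_of_mem (hs hb), hclq, ?_, ?_⟩
        · intro b hb
          obtain ⟨p1, p2, p3, p4⟩ := hreg b hb
          refine ⟨p1, p2, p3, ?_⟩
          rw [Function.update_of_ne (by rintro rfl; exact hvL (hs hb))]
          exact p4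
        · simp only [Blk.add]
          rw [Function.update_of_ne hij]
          omega

/-- A stack from which Presenter wins the stack game is realised by a family of boxes. -/
theorem realize {St : List (Blk k)} (hf : Force c k St) : ∀ (L : Finset Box) (κ : Box → Fin k)
    (z0 : ℝ) (gs : List (GB k)), gs.map GB.B = St → Inv c k L κ z0 gs → Good c k L κ := by
  induction hf with
  | win S B i hB hc =>
    intro L κ z0 gs hgs h
    subst hgs
    obtain ⟨g, hg, rfl⟩ := List.mem_map.1 hB
    exact h.win hg hc
  | push S _ ih =>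
    intro L κ z0 gs hgs h
    obtain ⟨g, hg, hinv⟩ := h.push
    exact ih L κ z0 (gs ++ [g]) (by simp [hgs, hg]) hinv
  | merge S B C _ ih =>
    intro L κ z0 gs hgs h
    obtain ⟨gs1, gs2, rfl, h1, h2⟩ := List.map_eq_append_iff.1 hgs
    obtain ⟨g, gs3, rfl, hB, h3⟩ := List.map_eq_cons_iff.1 h2
    obtain ⟨g', gs4, rfl, hC, h4⟩ := List.map_eq_cons_iff.1 h3
    rw [List.map_eq_nil_iff] at h4
    subst h4
    exact ih L κ z0 _ (by simp [h1, hB, hC]) h.merge
  | cover S B Cs n hw _ ih =>
    intro L κ z0 gs hgs h
    obtain ⟨gs1, gs2, rfl, h1, h2⟩ := List.map_eq_append_iff.1 hgs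
    obtain ⟨g, gs3, rfl, hB, h3⟩ := List.map_eq_cons_iff.1 h2
    subst hB
    subst h3
    obtain ⟨v, hvL, hfull, hv⟩ := h.cover (by
      intro X hX
      apply hw
      have : X.B ∈ (g :: gs3).map GB.B := List.mem_map_of_mem hX
      simpa using this)
    apply Good.move v hfull hvL
    intro i
    obtain ⟨z', g', hg', hinv⟩ := hv i (n i)
    apply ih i _ _ z' (gs1 ++ [g']) _ hinv
    simp [h1, hg', List.map_take]

theorem good_nil (hc : 1 ≤ c) (κ : Box → Fin k) : Good c k ∅ κ := by
  apply realize (force_nil c k hc) ∅ κ 0 [] rfl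
  refine ⟨by simp, ?_, by simp, by simp, by simp, by simp, by simp⟩
  intro s hs _
  rw [Finset.subset_empty.1 hs]; simp

end Pool.MP_ccb602_co.Folkman
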